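import Mathlib
import Pool.Agent.H1.Lonely.Defs
import Pool.Agent.H1.Lonely.Proof

namespace Pool.Agent.Results.MP_2f2576_co.Unbounded

open Pool.Agent.H1.Lonely

/-- Q2 (and Q1) in full, with the answer no: for every finite `m` there is a finite no lonely
colour graph `X`, which is in particular a no pied circuit graph, with chromatic number greater
than `m`. -/
theorem result : ∀ m : ℕ, ∃ (V : Type) (_ : Finite V) (X : SimpleGraph V),
    NoLonelyColour X ∧ NoPiedCircuit X ∧ (m : ℕ∞) < X.chromaticNumber :=
  main

end Pool.Agent.Results.MP_2f2576_co.Unbounded
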